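import Pool.Agent.Helper22.SL.Defs
import Pool.Agent.Helper29.T4.Pat

/-!
# T5, block SL: extraction of a pattern from many hits (S11)
-/

namespace Pool.Agent.Helper50.SL

open Finset Pool.Agent.Helper27.T4 Pool.Agent.Helper29.T4 Pool.Agent.Helper22.HW
open Pool.Agent.Helper22.SL

variable {κ : Type*} {Mk : κ → ℕ} {P : Pr κ} {I : ℕ} {X Ir : ℕ → ℕ}

/-- the coordinate `c` of the level `r`: `0, 1`: families 0, 1 of the upper state,
`2, 3`: families 0, 1 of the lower state -/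
def crd (c : ℕ × Fin 4) (x : Dt × (ℕ × ℕ)) : ℕ :=
  ![(x.1.2 c.1).1.1 0, (x.1.2 c.1).1.1 1, (x.1.2 c.1).1.2 0, (x.1.2 c.1).1.2 1] c.2

/-- extraction, with the constancy of the targets (S10) as hypothesis -/
theorem extract_of (hT : Tg P I X Ir) {w : κ → ℕ} {B B' : Finset ℕ} {m : ℕ}
    (hTC : ∀ (x y : Dt × (ℕ × ℕ)), Hit P w I X B B' x → Hit P w I X B B' y → ∀ r < P.h,
      (x.1.2 r).1.1 0 = (y.1.2 r).1.1 0 → (x.1.2 r).1.2 0 = (y.1.2 r).1.2 0 →
      TT X x.1 r = TT X y.1 r)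
    (hm : 1 ≤ m) (h : Many P w I X B B' ((m + 1) ^ 2 ^ (4 * P.h))) :
    Ev P I X B B' m (EvL P) w ∨ ∃ r < P.h, Ev P I X B B' m (EvA r) w ∨
      Ev P I X B B' m (EvA' r) w ∨ (1 ≤ r ∧ Ev P I X B B' m (EvB X r) w) := by
  classical
  obtain ⟨H, hHc, hHit, hlab⟩ := h
  have hcard : (range P.h ×ˢ (univ : Finset (Fin 4))).card = 4 * P.h := by
    rw [Finset.card_product, Finset.card_range, Finset.card_univ, Fintype.card_fin]
    ring
  obtain ⟨T, hTH, hTc, hpat⟩ := exists_pattern (range P.h ×ˢ (univ : Finset (Fin 4))) crd (m + 1)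
    (by omega) H (by rw [hcard, hHc])
  have hhit : ∀ x ∈ T, Hit P w I X B B' x := fun x hx => hHit x (hTH hx)
  have hl : ∀ x ∈ T, ∀ y ∈ T, x.1.1 = y.1.1 → x = y := fun x hx y hy e =>
    hlab x (hTH hx) y (hTH hy) e
  have hp : ∀ r < P.h, ∀ c : Fin 4, (∀ x ∈ T, ∀ y ∈ T, crd (r, c) x = crd (r, c) y) ∨
      Set.InjOn (crd (r, c)) (T : Set (Dt × (ℕ × ℕ))) := by
    intro r hr c
    exact hpat (r, c) (Finset.mem_product.mpr ⟨Finset.mem_range.mpr hr, Finset.mem_univ _⟩)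
  -- two different elements
  obtain ⟨x0, hx0, y0, hy0, hxy0⟩ : ∃ x ∈ T, ∃ y ∈ T, x ≠ y := by
    have h1 : 1 < T.card := by omega
    obtain ⟨x, hx, y, hy, hne⟩ := Finset.one_lt_card.mp h1
    exact ⟨x, hx, y, hy, hne⟩
  -- injective coordinates give `KNe`
  have kne0 : ∀ r, Set.InjOn (crd (r, 0)) (T : Set (Dt × (ℕ × ℕ))) → KNe r T := by
    intro r hi x hx y hy hne
    refine ⟨0, by decide, fun he => hne (hi hx hy ?_)⟩
    simpa [crd] using he
  have kne1 : ∀ r, Set.InjOn (crd (r, 1)) (T : Set (Dt × (ℕ × ℕ))) → KNe r T := by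
    intro r hi x hx y hy hne
    refine ⟨1, by decide, fun he => hne (hi hx hy ?_)⟩
    simpa [crd] using he
  have kne2 : ∀ r, Set.InjOn (crd (r, 2)) (T : Set (Dt × (ℕ × ℕ))) → KNe' r T := by
    intro r hi x hx y hy hne
    refine ⟨0, by decide, fun he => hne (hi hx hy ?_)⟩
    simpa [crd] using he
  have kne3 : ∀ r, Set.InjOn (crd (r, 3)) (T : Set (Dt × (ℕ × ℕ))) → KNe' r T := by
    intro r hi x hx y hy hne
    refine ⟨1, by decide, fun he => hne (hi hx hy ?_)⟩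
    simpa [crd] using he
  by_cases hall : ∀ t < P.h, KNe t T ∧ KNe' t T
  · exact Or.inl ⟨T, hTc, hhit, hl, hall⟩
  right
  push Not at hall
  -- the first bad level
  have hex : ∃ t, t < P.h ∧ ¬ (KNe t T ∧ KNe' t T) := by
    obtain ⟨t, ht, hbad⟩ := hall
    exact ⟨t, ht, fun hc => hbad hc.1 hc.2⟩
  set r := Nat.find hex with hr
  obtain ⟨hrh, hrbad⟩ := Nat.find_spec hex
  rw [← hr] at hrh hrbad
  have hlow : ∀ t < r, KNe t T ∧ KNe' t T := by
    intro t ht
    by_contra hc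
    exact Nat.find_min hex ht ⟨lt_trans ht hrh, hc⟩
  refine ⟨r, hrh, ?_⟩
  -- both families 0 constant
  have hB : (∀ x ∈ T, ∀ y ∈ T, crd (r, 0) x = crd (r, 0) y) →
      (∀ x ∈ T, ∀ y ∈ T, crd (r, 2) x = crd (r, 2) y) →
      1 ≤ r ∧ Ev P I X B B' m (EvB X r) w := by
    intro h0 h2
    have hconst : ∀ x ∈ T, ∀ y ∈ T, TT X x.1 r = TT X y.1 r := by
      intro x hx y hy
      refine hTC x y (hhit x hx) (hhit y hy) r hrh ?_ ?_
      · simpa [crd] using h0 x hx y hy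
      · simpa [crd] using h2 x hx y hy
    refine ⟨?_, T, hTc, hhit, hl, hlow, TT X x0.1 r, fun x hx => hconst x hx x0 hx0⟩
    by_contra hr0
    have hr0' : r = 0 := by omega
    have h3 := hconst x0 hx0 y0 hy0
    rw [hr0'] at h3
    simp only [TT] at h3
    exact hxy0 (hl x0 hx0 y0 hy0 (hT.inj _ (hhit x0 hx0).lab _ (hhit y0 hy0).lab h3))
  have hsplit : ¬ KNe r T ∨ ¬ KNe' r T := by tauto
  rcases hsplit with hk | hk
  · -- upper state constant
    have c0 : ∀ x ∈ T, ∀ y ∈ T, crd (r, 0) x = crd (r, 0) y := by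
      rcases hp r hrh 0 with h1 | h1
      · exact h1
      · exact absurd (kne0 r h1) hk
    have c1 : ∀ x ∈ T, ∀ y ∈ T, crd (r, 1) x = crd (r, 1) y := by
      rcases hp r hrh 1 with h1 | h1
      · exact h1
      · exact absurd (kne1 r h1) hk
    rcases hp r hrh 2 with c2 | i2
    · exact Or.inr (Or.inr (hB c0 c2))
    · left
      refine ⟨T, hTc, hhit, hl, hlow, ⟨(x0.1.2 r).1.1 0, (x0.1.2 r).1.1 1, fun x hx => ?_⟩, ?_⟩
      · have e0 := c0 x hx x0 hx0
        have e1 := c1 x hx x0 hx0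
        simp only [crd] at e0 e1
        exact ⟨by simpa using e0, by simpa using e1⟩
      · intro x hx y hy hne he
        exact hne (i2 hx hy (by simpa [crd] using he))
  · -- lower state constant
    have c2 : ∀ x ∈ T, ∀ y ∈ T, crd (r, 2) x = crd (r, 2) y := by
      rcases hp r hrh 2 with h1 | h1
      · exact h1
      · exact absurd (kne2 r h1) hk
    have c3 : ∀ x ∈ T, ∀ y ∈ T, crd (r, 3) x = crd (r, 3) y := by
      rcases hp r hrh 3 with h1 | h1
      · exact h1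
      · exact absurd (kne3 r h1) hk
    rcases hp r hrh 0 with c0 | i0
    · exact Or.inr (Or.inr (hB c0 c2))
    · right; left
      refine ⟨T, hTc, hhit, hl, hlow, ⟨(x0.1.2 r).1.2 0, (x0.1.2 r).1.2 1, fun x hx => ?_⟩, ?_⟩
      · have e2 := c2 x hx x0 hx0
        have e3 := c3 x hx x0 hx0
        simp only [crd] at e2 e3
        exact ⟨by simpa using e2, by simpa using e3⟩
      · intro x hx y hy hne he
        exact hne (i0 hx hy (by simpa [crd] using he))

end Pool.Agent.Helper50.SL
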