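import Pool.Agent.Helper50.SL.Extract
import Pool.Agent.Helper64.SL.TTConst

/-!
# T5, block SL, S11: extraction of one event (unconditional form)
-/

set_option autoImplicit false

namespace Pool.Agent.Helper50.SL

open Finset Pool.Agent.Helper27.T4 Pool.Agent.Helper29.T4 Pool.Agent.Helper22.HW
  Pool.Agent.Helper22.SL

variable {κ : Type*} {Mk : κ → ℕ} {P : Pr κ} {I : ℕ} {X Ir : ℕ → ℕ}

/-- **S11.** -/
theorem extract (hP : P.Ok Mk) (hT : Tg P I X Ir) {w : κ → ℕ} {B B' : Finset ℕ} {m : ℕ}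
    (hm : 1 ≤ m) (h : Many P w I X B B' ((m + 1) ^ 2 ^ (4 * P.h))) :
    Ev P I X B B' m (EvL P) w ∨ ∃ r < P.h, Ev P I X B B' m (EvA r) w ∨
      Ev P I X B B' m (EvA' r) w ∨ (1 ≤ r ∧ Ev P I X B B' m (EvB X r) w) :=
  extract_of hT (fun _ _ hx hy _ hr h0 h2 =>
    Pool.Agent.Helper64.SL.TT_const hP hT hx hy hr h0 h2) hm h

end Pool.Agent.Helper50.SL
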